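import Pool.Agent.H9.CA.TarQ

/-!
# Module QF: stationary sets give countable closed sets
-/

set_option autoImplicit false
set_option linter.unusedVariables false

open Ordinal Order Set
open scoped ZFSet

namespace CAA

open SF

namespace QFm

/-- one step: the supremum of the successors of the elements of `clo F x ∩ m` -/
noncomputable def stp (F m x : V) : V := (⋃₀ (imS (clo F x ∩ m) fun t => insert t t) : ZFSet)

theorem tm_stp (h : Tm ZFm (fun _ v => clo (v 0) (v 1))) :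
    Tm ZFm (fun _ v => stp (v 1) (v 2) (v 0)) := by
  unfold stp
  exact Tm.iUn (f := fun _ v => clo (v 1) (v 0) ∩ v 2) (g := fun _ v => insert (v 0) (v 0))
    (Tm.inter (Tm.at2 (F := fun _ x y => clo x y) h (Tm.var 1) (Tm.var 0)) (Tm.var 2))
    (Tm.ins (Tm.var 0) (Tm.var 0))

/-- an initial segment of an ordinal is an ordinal -/
theorem ord_of_sub {x : V} {η : Ordinal.{0}} (hx : x.IsTransitive) (h : x ⊆ η.toZFSet) :
    ∃ α ≤ η, x = α.toZFSet := by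
  have h1 : IsOrd x := by
    rw [isOrd_iff]
    refine ⟨hx, fun y hy => ?_⟩
    obtain ⟨β, -, rfl⟩ := Ordinal.mem_toZFSet_iff.1 (h hy)
    exact (ZFSet.isOrdinal_toZFSet _).isTransitive
  obtain ⟨α, rfl⟩ := h1
  exact ⟨α, Ordinal.toZFSet_subset_toZFSet_iff.1 h, rfl⟩

theorem stp_spec {F x : V} {μ η : Ordinal.{0}} (hx : ∀ t ∈ clo F x, t ∈ μ.toZFSet →
    t ∈ η.toZFSet) : ∃ α ≤ η, stp F μ.toZFSet x = α.toZFSet := by
  refine ord_of_sub ?_ ?_
  · intro y hy z hz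
    obtain ⟨_, h1, h2⟩ := ZFSet.mem_sUnion.1 hy
    obtain ⟨t, ht, rfl⟩ := mem_imS.1 h1
    refine ZFSet.mem_sUnion.2 ⟨_, mem_imS.2 ⟨t, ht, rfl⟩, ?_⟩
    obtain ⟨β, -, rfl⟩ := Ordinal.mem_toZFSet_iff.1 (ZFSet.mem_inter.1 ht).2
    rw [ZFSet.mem_insert_iff] at h2 ⊢
    right
    rcases h2 with rfl | h2
    · exact hz
    · exact (ZFSet.isOrdinal_toZFSet _).mem_trans hz h2
  · intro y hy
    obtain ⟨_, h1, h2⟩ := ZFSet.mem_sUnion.1 hy
    obtain ⟨t, ht, rfl⟩ := mem_imS.1 h1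
    obtain ⟨ht1, ht2⟩ := ZFSet.mem_inter.1 ht
    have ht3 := hx t ht1 ht2
    rw [ZFSet.mem_insert_iff] at h2
    rcases h2 with rfl | h2
    · exact ht3
    · exact (ZFSet.isOrdinal_toZFSet _).mem_trans h2 ht3

theorem mem_stp {F m x t : V} (h1 : t ∈ clo F x) (h2 : t ∈ m) : t ∈ stp F m x :=
  ZFSet.mem_sUnion.2 ⟨_, mem_imS.2 ⟨t, ZFSet.mem_inter.2 ⟨h1, h2⟩, rfl⟩, by simp⟩

/-- a finite set of ordinals below a limit ordinal is bounded -/
theorem list_bd {δ : Ordinal.{0}} (h : IsSuccLimit δ) (l : List V)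
    (hl : ∀ p ∈ l, p ∈ δ.toZFSet) : ∃ d < δ, ∀ p ∈ l, p ∈ d.toZFSet := by
  induction l with
  | nil => exact ⟨0, h.bot_lt, by simp⟩
  | cons a l ih =>
    obtain ⟨d, hd, h1⟩ := ih fun p hp => hl p (by simp [hp])
    obtain ⟨α, hα, rfl⟩ := Ordinal.mem_toZFSet_iff.1 (hl a (by simp))
    refine ⟨max d (succ α), max_lt hd (h.succ_lt hα), fun p hp => ?_⟩
    rcases List.mem_cons.1 hp with rfl | hp
    · exact Ordinal.toZFSet_mem_toZFSet_iff.2 (lt_max_of_lt_right (lt_succ α))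
    · exact Ordinal.toZFSet_subset_toZFSet_iff.2 (le_max_left _ _) (h1 p hp)

end QFm

open QFm

theorem pf_QF (hQE : T_QE) (hDF : T_DF) : T_QF := by
  intro M A C μ E hM hA hμ hAt hμA hC hG hlim hsm hbd hst hcf F hF hFF
  have k := hM.toZFm
  obtain ⟨q1, q2, q3, q4⟩ := hQE
  obtain ⟨f1, f2, f3, -, -, -, f7, -, -, -⟩ := hDF M k C hC hG
  have hqc := fun x (hx : x ⊆ A) (hMx : M x) => q4 M hM A F hA hF hFF x hx hMx
  have hcloM : ∀ x, M x → M (clo F x) := fun x hx =>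
    q1.1 M k (cons F (cons x fun _ => x)) (((show In M fun _ => x from fun _ => hx).cons hx).cons hF)
  have hMo : ∀ δ < μ, M δ.toZFSet := fun δ hδ =>
    k.trans _ hμ _ (Ordinal.toZFSet_mem_toZFSet_iff.2 hδ)
  have hsubA : ∀ δ < μ, δ.toZFSet ⊆ A := fun δ hδ =>
    (Ordinal.toZFSet_subset_toZFSet_iff.2 hδ.le).trans hμA
  have hmono : ∀ x y, x ⊆ y → clo F x ⊆ clo F y := fun x y hxy =>
    (q2 F x).2.2 _ (hxy.trans (q2 F y).1) (q2 F y).2.1
  -- the club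
  set S : V := μ.toZFSet.sep fun x => ∀ d ∈ x, clo F d ∩ μ.toZFSet ⊆ x with hS
  have hMS : M S := by
    have h1 : Tm ZFm (fun _ v => (v 0).sep fun x => ∀ d ∈ x, clo (v 1) d ∩ v 0 ⊆ x) := by
      refine Tm.sep (R := fun _ v => ∀ d ∈ v 0, clo (v 2) d ∩ v 1 ⊆ v 0) ?_ (Tm.var 0)
      exact (Dfb.ball (R := fun _ v => clo (v 3) (v 0) ∩ v 2 ⊆ v 1) ktr_zfm (Tm.var 0)
        (Dfb.subset (Tm.inter (Tm.at2 (F := fun _ x y => clo x y) q1 (Tm.var 3) (Tm.var 0))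
          (Tm.var 2)) (Tm.var 1))).congr fun M k v hv => Iff.rfl
    exact h1.1 M k (cons μ.toZFSet (cons F fun _ => F))
      (((show In M fun _ => F from fun _ => hF).cons hF).cons hμ)
  have hclub : IsClub μ S := by
    refine ⟨fun x hx => (ZFSet.mem_sep.1 hx).1, ?_, ?_⟩
    · intro ξ hξ
      -- the iteration
      let sf : (V → Prop) → (ℕ → V) → V := fun _ v => stp (v 1) (v 2) (v 0)
      let sg : (V → Prop) → (ℕ → V) → V := fun _ v => v 2
      let w : ℕ → V := cons F (cons μ.toZFSet fun _ => (succ ξ).toZFSet)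
      have hw : In M w :=
        ((show In M fun _ => (succ ξ).toZFSet from fun _ => hMo _ (hlim.succ_lt hξ)).cons
          hμ).cons hF
      let G : ℕ → V := it sf sg M w
      have hG0 : G 0 = (succ ξ).toZFSet := rfl
      have hGs : ∀ n, G (n + 1) = stp F μ.toZFSet (G n) := fun n => rfl
      have hGo : ∀ n, ∃ α < μ, G n = α.toZFSet := by
        intro n
        induction n with
        | zero => exact ⟨succ ξ, hlim.succ_lt hξ, rfl⟩
        | succ n ih =>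
          obtain ⟨α, hα, h1⟩ := ih
          have h2 := (hqc _ (hsubA α hα) (hMo α hα)).2.1 C hC hG (hsm α hα)
          have h3 : M (clo F α.toZFSet ∩ μ.toZFSet) :=
            (Tm.inter (Tm.var 0) (Tm.var 1)).1 M k (cons (clo F α.toZFSet) fun _ => μ.toZFSet)
              ((show In M fun _ => μ.toZFSet from fun _ => hμ).cons (hcloM _ (hMo α hα)))
          obtain ⟨η, hη, h4⟩ := hbd _ h3
            (f3 _ _ h3 h2 fun x hx => (ZFSet.mem_inter.1 hx).1)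
            (fun x hx => (ZFSet.mem_inter.1 hx).2)
          obtain ⟨β, hβ, h5⟩ := stp_spec (F := F) (x := α.toZFSet) (μ := μ) (η := η)
            fun t ht1 ht2 => h4 (ZFSet.mem_inter.2 ⟨ht1, ht2⟩)
          refine ⟨β, hβ.trans_lt hη, ?_⟩
          rw [hGs, h1, h5]
      let R : V := resS om fun x => it sf sg M w (nn x)
      have hMR : M R := (Tm.resS (f := fun _ _ => om)
        (g := fun M v => it sf sg M (fun i => v (i + 1)) (nn (v 0))) Tm.om
        (tm_it (tm_stp q1) (Tm.var 2))).1 M k w hw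
      have hRm : ∀ y, y ∈ rg R ↔ ∃ n, y = G n := by
        intro y
        rw [mem_rg]
        constructor
        · rintro ⟨x, hx⟩
          exact ⟨nn x, (pair_mem_resS.1 hx).2⟩
        · rintro ⟨n, rfl⟩
          refine ⟨nS n, pair_mem_resS.2 ⟨nS_mem_om n, ?_⟩⟩
          rw [nn_nS]
      have hMrR : M (rg R) := (Tm.rg (Tm.var 0)).1 M k (fun _ => R) fun _ => hMR
      obtain ⟨η, hη, hb⟩ := hbd (rg R) hMrR
        (f7 om R (f1 _ hG.om) hMR (svl_resS _ _) (dm_resS _ _)) (by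
          intro y hy
          obtain ⟨n, rfl⟩ := (hRm y).1 hy
          obtain ⟨α, hα, h1⟩ := hGo n
          rw [h1]
          exact Ordinal.toZFSet_mem_toZFSet_iff.2 hα)
      have hmU : ∀ y, y ∈ (⋃₀ (rg R) : ZFSet) ↔ ∃ n, y ∈ G n := by
        intro y
        rw [ZFSet.mem_sUnion]
        constructor
        · rintro ⟨z, hz, h1⟩
          obtain ⟨n, rfl⟩ := (hRm z).1 hz
          exact ⟨n, h1⟩
        · rintro ⟨n, h1⟩
          exact ⟨_, (hRm _).2 ⟨n, rfl⟩, h1⟩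
      obtain ⟨α, hα, h1⟩ := ord_of_sub (x := (⋃₀ (rg R) : ZFSet)) (η := η) (by
          intro y hy z hz
          obtain ⟨n, h2⟩ := (hmU y).1 hy
          obtain ⟨β, hβ, h3⟩ := hGo n
          refine (hmU z).2 ⟨n, ?_⟩
          rw [h3] at h2 ⊢
          exact (ZFSet.isOrdinal_toZFSet _).mem_trans hz h2) (by
          intro y hy
          obtain ⟨n, h2⟩ := (hmU y).1 hy
          exact (ZFSet.isOrdinal_toZFSet _).mem_trans h2 (hb ((hRm _).2 ⟨n, rfl⟩)))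
      refine ⟨α, ?_, ?_⟩
      · rw [← Ordinal.toZFSet_mem_toZFSet_iff, ← h1, hmU]
        exact ⟨0, Ordinal.toZFSet_mem_toZFSet_iff.2 (lt_succ ξ)⟩
      · refine ZFSet.mem_sep.2 ⟨Ordinal.toZFSet_mem_toZFSet_iff.2 (hα.trans_lt hη), ?_⟩
        intro d hd t ht
        obtain ⟨ht1, ht2⟩ := ZFSet.mem_inter.1 ht
        rw [← h1, hmU] at hd
        obtain ⟨n, hn⟩ := hd
        rw [← h1, hmU]
        refine ⟨n + 1, ?_⟩
        rw [hGs]
        refine mem_stp (hmono d (G n) ?_ ht1) ht2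
        obtain ⟨β, hβ, h3⟩ := hGo n
        rw [h3] at hn ⊢
        exact fun x hx => (ZFSet.isOrdinal_toZFSet _).mem_trans hx hn
    · intro δ hδ h0 h1
      refine ZFSet.mem_sep.2 ⟨Ordinal.toZFSet_mem_toZFSet_iff.2 hδ, fun d hd => ?_⟩
      obtain ⟨ξ, hξ, rfl⟩ := Ordinal.mem_toZFSet_iff.1 hd
      obtain ⟨η, h2, h3, h4⟩ := h1 ξ hξ
      exact ((ZFSet.mem_sep.1 h4).2 _ (Ordinal.toZFSet_mem_toZFSet_iff.2 h2)).trans
        (Ordinal.toZFSet_subset_toZFSet_iff.2 h3.le)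
  obtain ⟨δ, hδ, hδS, hE⟩ := hst S hMS hclub
  obtain ⟨f, hf, hfF, hfc⟩ := hcf δ hE hδ
  have hδl : IsSuccLimit δ := by
    rcases Ordinal.zero_or_succ_or_isSuccLimit δ with h | ⟨ξ, h⟩ | h
    · exfalso
      have h1 := app_mem hfF (nS_mem_om 0)
      rw [h, Ordinal.toZFSet_zero] at h1
      exact ZFSet.notMem_empty _ h1
    · exfalso
      have h0 : ξ < δ := by rw [← h]; exact lt_succ ξ
      obtain ⟨n, hn⟩ := hfc ξ h0
      have h1 := app_mem hfF (nS_mem_om n)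
      obtain ⟨β, hβ, h2⟩ := Ordinal.mem_toZFSet_iff.1 h1
      rw [← h2, Ordinal.toZFSet_mem_toZFSet_iff] at hn
      rw [← h] at hβ
      exact absurd (lt_succ_iff.1 hβ) hn.not_ge
    · exact h
  have hrg : rg f ⊆ δ.toZFSet := by
    intro y hy
    obtain ⟨x, hx⟩ := mem_rg.1 hy
    exact (ZFSet.pair_mem_prod.1 (hfF.1 hx)).2
  have hrgA : rg f ⊆ A := hrg.trans (hsubA δ hδ)
  have hMrg : M (rg f) := (Tm.rg (Tm.var 0)).1 M k (fun _ => f) fun _ => hf
  have hct : Ctbl M (rg f) := by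
    right
    refine ⟨f, hf, ⟨fun z hz => ?_, hfF.2⟩, fun b hb => ?_⟩
    · obtain ⟨a, ha, b, hb, rfl⟩ := ZFSet.mem_prod.1 (hfF.1 hz)
      exact ZFSet.pair_mem_prod.2 ⟨ha, mem_rg.2 ⟨a, hz⟩⟩
    · obtain ⟨a, ha⟩ := mem_rg.1 hb
      exact ⟨a, (ZFSet.pair_mem_prod.1 (hfF.1 ha)).1, ha⟩
  refine ⟨clo F (rg f), hcloM _ hMrg, (hqc _ hrgA hMrg).2.2 hct, (hqc _ hrgA hMrg).1,
    (q2 F _).2.1, δ, hδ, hE, ?_, ?_⟩
  · intro x hx hxμ
    obtain ⟨l, hl, hl2⟩ := q3 F _ x hx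
    obtain ⟨d, hd, h1⟩ := list_bd hδl l fun p hp => hrg (hl p hp)
    exact (ZFSet.mem_sep.1 hδS).2 _ (Ordinal.toZFSet_mem_toZFSet_iff.2 hd)
      (ZFSet.mem_inter.2 ⟨hl2 _ h1, hxμ⟩)
  · intro ξ hξ
    obtain ⟨ζ, hζ, rfl⟩ := Ordinal.mem_toZFSet_iff.1 hξ
    obtain ⟨n, hn⟩ := hfc ζ hζ
    have h1 : app f (nS n) ∈ rg f := mem_rg.2 ⟨nS n, pair_app_mem hfF (nS_mem_om n)⟩
    exact ⟨app f (nS n), (q2 F _).1 h1,
      Ordinal.toZFSet_subset_toZFSet_iff.2 hδ.le (hrg h1), Or.inl hn⟩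

end CAA
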